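import Mathlib
import Pool.Agent.H46.Conj

set_option autoImplicit false

open Topology Asymptotics

namespace Pool.Agent.Results.MP_1bbffc_an.HenonGerm

/-- The self-map of `ℂⁿ` (equivalently: the vector field on `ℂⁿ`) given by an `n`-tuple `P` of
polynomials. -/
noncomputable def polyMap {n : ℕ} (P : Fin n → MvPolynomial (Fin n) ℂ) (z : Fin n → ℂ) :
    Fin n → ℂ :=
  fun i => MvPolynomial.eval z (P i)

/-- `f` is (a representative of) a germ of a holomorphic map of `ℂⁿ` fixing the origin, with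
`f(z) = z + P(z) + O(|z| ^ (ν + 1))`, where `P` is a non-zero `n`-tuple of homogeneous polynomials
of degree `ν ≥ 2`: a germ tangent to the identity of multiplicity `ν`. -/
structure IsTangentToIdentity {n : ℕ} (f : (Fin n → ℂ) → (Fin n → ℂ)) (ν : ℕ)
    (P : Fin n → MvPolynomial (Fin n) ℂ) : Prop where
  two_le : 2 ≤ ν
  holomorphic : AnalyticAt ℂ f 0
  map_zero : f 0 = 0
  ne_zero : P ≠ 0
  homogeneous : ∀ i, (P i).IsHomogeneous ν
  expansion : (fun z => f z - (z + polyMap P z)) =O[𝓝 0] (fun z => ‖z‖ ^ (ν + 1))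

/-- `v` is a characteristic direction of `P`: `v ≠ 0` and `P(v) = c v` for some `c`. -/
def IsCharacteristicDirection {n : ℕ} (P : Fin n → MvPolynomial (Fin n) ℂ) (v : Fin n → ℂ) :
    Prop :=
  v ≠ 0 ∧ ∃ c : ℂ, polyMap P v = c • v

/-- A characteristic direction `v` is degenerate if `P(v) = 0`. -/
def IsDegenerate {n : ℕ} (P : Fin n → MvPolynomial (Fin n) ℂ) (v : Fin n → ℂ) : Prop :=
  polyMap P v = 0

/-- `g` represents the germ at the origin of the time-1 map of the vector field `P`: for every `z`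
near `0` there is a solution `γ` of `γ' = P(γ)` on (a neighbourhood of) `[0, 1]` with `γ(0) = z` and
`γ(1) = g(z)`. -/
def IsTimeOneMap {n : ℕ} (P : Fin n → MvPolynomial (Fin n) ℂ) (g : (Fin n → ℂ) → (Fin n → ℂ)) :
    Prop :=
  ∀ᶠ z in 𝓝 (0 : Fin n → ℂ), ∃ γ : ℝ → (Fin n → ℂ), γ 0 = z ∧ γ 1 = g z ∧
    ∀ t ∈ Set.Icc (0 : ℝ) 1, HasDerivAt γ (polyMap P (γ t)) t

/-- `f` and `g` (fixing the origin) are topologically locally conjugate: there are neighbourhoods
`U`, `V` of the origin and a homeomorphism `h : U → V` with `h(0) = 0` and `h ∘ f = g ∘ h` on a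
neighbourhood of the origin. -/
def LocallyConjugate {n : ℕ} (f g : (Fin n → ℂ) → (Fin n → ℂ)) : Prop :=
  ∃ U ∈ 𝓝 (0 : Fin n → ℂ), ∃ V ∈ 𝓝 (0 : Fin n → ℂ), ∃ h : U ≃ₜ V,
    (∀ x : U, (x : Fin n → ℂ) = 0 → (h x : Fin n → ℂ) = 0) ∧
    ∀ᶠ z in 𝓝 (0 : Fin n → ℂ), ∃ (hz : z ∈ U) (hfz : f z ∈ U),
      (h ⟨f z, hfz⟩ : Fin n → ℂ) = g (h ⟨z, hz⟩)

/-- The map `(x, y) ↦ (x + y³, y - (x + y³)³)` of `ℂ²`, a composition of two shears. -/
def henon (z : Fin 2 → ℂ) : Fin 2 → ℂ :=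
  ![z 0 + z 1 ^ 3, z 1 - (z 0 + z 1 ^ 3) ^ 3]

/-- The pair of cubic forms `(y³, -x³)`. -/
noncomputable def cubic : Fin 2 → MvPolynomial (Fin 2) ℂ :=
  ![MvPolynomial.X 1 ^ 3, -(MvPolynomial.X 0 ^ 3)]

private theorem polyMap_cubic (z : Fin 2 → ℂ) : polyMap cubic z = Pool.Agent.H46.vf z :=
  Pool.Agent.H46.eval_vfQ z

private theorem cubic_tangent : IsTangentToIdentity henon 3 cubic where
  two_le := by norm_num
  holomorphic := Pool.Agent.H46.hen_analyticAt
  map_zero := Pool.Agent.H46.hen_map_zero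
  ne_zero := by
    intro h
    have h0 := congr_fun h 0
    have h1 := congr_arg (MvPolynomial.eval (fun _ => (1 : ℂ))) h0
    simp [cubic] at h1
  homogeneous := Pool.Agent.H46.vfQ_hom
  expansion := by
    have h := Pool.Agent.H46.hen_isBigO
    refine h.congr_left fun z => ?_
    rw [sub_sub]
    rfl

private theorem cubic_nondeg (v : Fin 2 → ℂ) (hv : v ≠ 0) : polyMap cubic v ≠ 0 := by
  intro h
  exact Pool.Agent.H46.vf_nondeg v 0 hv (by rw [zero_smul]; exact h) rfl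

private theorem vf_norm_le {R : ℝ} {z : Fin 2 → ℂ} (hR : 0 ≤ R) (hz : ‖z‖ ≤ R) :
    ‖Pool.Agent.H46.vf z‖ ≤ R ^ 3 := by
  rw [pi_norm_le_iff_of_nonneg (by positivity)]
  intro i
  fin_cases i
  · have h := (norm_le_pi_norm z 1).trans hz
    simp only [Pool.Agent.H46.vf, Fin.zero_eta, Matrix.cons_val_zero, norm_pow]
    gcongr
  · have h := (norm_le_pi_norm z 0).trans hz
    simp only [Pool.Agent.H46.vf, Fin.mk_one, Matrix.cons_val_one, Matrix.cons_val_fin_one,
      norm_neg, norm_pow]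
    gcongr

private theorem exists_curve (z : Fin 2 → ℂ) (hz : z ∈ Metric.closedBall (0 : Fin 2 → ℂ) (1 / 4)) :
    ∃ γ : ℝ → (Fin 2 → ℂ), γ 0 = z ∧
      ∀ t ∈ Set.Icc (0 : ℝ) 1, HasDerivAt γ (Pool.Agent.H46.vf (γ t)) t := by
  have hPL : IsPicardLindelof (fun _ => Pool.Agent.H46.vf)
      (⟨0, by constructor <;> norm_num⟩ : Set.Icc (-1 : ℝ) 2) (0 : Fin 2 → ℂ)
      (1 / 2) (1 / 4) (1 / 8) (Real.toNNReal (3 * (1 / 2) ^ 2)) := by
    apply IsPicardLindelof.of_time_independent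
    · intro x hx
      rw [mem_closedBall_zero_iff] at hx
      have h1 : ‖x‖ ≤ 1 / 2 := by simpa using hx
      have h2 := vf_norm_le (by norm_num) h1
      refine h2.trans (le_of_eq ?_)
      norm_num
    · have h := Pool.Agent.H46.vf_lipschitz (1 / 2)
      refine h.mono ?_
      apply le_of_eq
      congr 1
    · norm_num
  obtain ⟨α, h0, h1⟩ := hPL.exists_eq_forall_mem_Icc_hasDerivWithinAt (x := z) (by
    refine Metric.mem_closedBall.mpr ((Metric.mem_closedBall.mp hz).trans (le_of_eq ?_))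
    norm_num)
  refine ⟨α, h0, fun t ht => ?_⟩
  have ht' : t ∈ Set.Icc (-1 : ℝ) 2 := ⟨by linarith [ht.1], by linarith [ht.2]⟩
  exact (h1 t ht').hasDerivAt (Icc_mem_nhds (by linarith [ht.1]) (by linarith [ht.2]))

private theorem exists_timeOne : ∃ g : (Fin 2 → ℂ) → (Fin 2 → ℂ), IsTimeOneMap cubic g := by
  classical
  have hex : ∀ z : Fin 2 → ℂ, ∃ w : Fin 2 → ℂ,
      z ∈ Metric.closedBall (0 : Fin 2 → ℂ) (1 / 4) → ∃ γ : ℝ → (Fin 2 → ℂ), γ 0 = z ∧ γ 1 = w ∧
        ∀ t ∈ Set.Icc (0 : ℝ) 1, HasDerivAt γ (polyMap cubic (γ t)) t := by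
    intro z
    by_cases hz : z ∈ Metric.closedBall (0 : Fin 2 → ℂ) (1 / 4)
    · obtain ⟨γ, h0, h1⟩ := exists_curve z hz
      refine ⟨γ 1, fun _ => ⟨γ, h0, rfl, fun t ht => ?_⟩⟩
      rw [polyMap_cubic]
      exact h1 t ht
    · exact ⟨0, fun h => absurd h hz⟩
  choose g hg using hex
  refine ⟨g, ?_⟩
  filter_upwards [Metric.closedBall_mem_nhds (0 : Fin 2 → ℂ) (by norm_num : (0 : ℝ) < 1 / 4)]
    with z hz
  exact hg z hz

private theorem timeOne_unique (g g' : (Fin 2 → ℂ) → (Fin 2 → ℂ)) (hg : IsTimeOneMap cubic g)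
    (hg' : IsTimeOneMap cubic g') : g =ᶠ[𝓝 0] g' := by
  filter_upwards [hg, hg'] with z h1 h2
  obtain ⟨γ, a0, a1, a2⟩ := h1
  obtain ⟨δ, b0, b1, b2⟩ := h2
  rw [← a1, ← b1]
  apply Pool.Agent.H46.vf_unique γ δ
  · intro t ht
    rw [← polyMap_cubic]
    exact (a2 t ht).hasDerivWithinAt
  · intro t ht
    rw [← polyMap_cubic]
    exact (b2 t ht).hasDerivWithinAt
  · rw [a0, b0]

/-- From a homeomorphism of neighbourhoods to the situation of `not_conj`. -/
private theorem not_locallyConjugate (g : (Fin 2 → ℂ) → (Fin 2 → ℂ)) (hg : IsTimeOneMap cubic g) :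
    ¬ LocallyConjugate henon g := by
  classical
  rintro ⟨U, hU, V, hV, h, hh0, hconj⟩
  have h0U : (0 : Fin 2 → ℂ) ∈ U := mem_of_mem_nhds hU
  have hh00 : (h ⟨0, h0U⟩ : Fin 2 → ℂ) = 0 := hh0 ⟨0, h0U⟩ rfl
  -- total functions
  let H : (Fin 2 → ℂ) → (Fin 2 → ℂ) := fun z => if hz : z ∈ U then (h ⟨z, hz⟩ : Fin 2 → ℂ) else 0
  let K : (Fin 2 → ℂ) → (Fin 2 → ℂ) :=
    fun w => if hw : w ∈ V then (h.symm ⟨w, hw⟩ : Fin 2 → ℂ) else 0
  have hHU : ∀ z (hz : z ∈ U), H z = h ⟨z, hz⟩ := fun z hz => by simp only [H, dif_pos hz]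
  have hKV : ∀ w (hw : w ∈ V), K w = h.symm ⟨w, hw⟩ := fun w hw => by simp only [K, dif_pos hw]
  have hHmem : ∀ z, z ∈ U → H z ∈ V := fun z hz => by rw [hHU z hz]; exact (h ⟨z, hz⟩).2
  have hKmem : ∀ w, w ∈ V → K w ∈ U := fun w hw => by rw [hKV w hw]; exact (h.symm ⟨w, hw⟩).2
  have hKH : ∀ z, z ∈ U → K (H z) = z := by
    intro z hz
    rw [hKV _ (hHmem z hz)]
    have : (⟨H z, hHmem z hz⟩ : V) = h ⟨z, hz⟩ := Subtype.ext (hHU z hz)
    rw [this, h.symm_apply_apply]
  have hHK : ∀ w, w ∈ V → H (K w) = w := by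
    intro w hw
    rw [hHU _ (hKmem w hw)]
    have : (⟨K w, hKmem w hw⟩ : U) = h.symm ⟨w, hw⟩ := Subtype.ext (hKV w hw)
    rw [this, h.apply_symm_apply]
  have hHc : ContinuousOn H U := by
    rw [continuousOn_iff_continuous_domRestrict]
    have : U.domRestrict H = fun z : U => (h z : Fin 2 → ℂ) := by
      funext z
      exact hHU z.1 z.2
    rw [this]
    exact continuous_subtype_val.comp h.continuous
  have hKc : ContinuousOn K V := by
    rw [continuousOn_iff_continuous_domRestrict]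
    have : V.domRestrict K = fun w : V => (h.symm w : Fin 2 → ℂ) := by
      funext w
      exact hKV w.1 w.2
    rw [this]
    exact continuous_subtype_val.comp h.symm.continuous
  have hH0 : H 0 = 0 := by rw [hHU 0 h0U]; exact hh00
  -- open sets
  have hWo : IsOpen (interior U ∩ H ⁻¹' interior V) :=
    (hHc.mono interior_subset).isOpen_inter_preimage isOpen_interior isOpen_interior
  have hW0 : (0 : Fin 2 → ℂ) ∈ interior U ∩ H ⁻¹' interior V :=
    ⟨mem_interior_iff_mem_nhds.mpr hU, by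
      change H 0 ∈ interior V
      rw [hH0]
      exact mem_interior_iff_mem_nhds.mpr hV⟩
  have hVo : IsOpen (interior V ∩ K ⁻¹' interior U) :=
    (hKc.mono interior_subset).isOpen_inter_preimage isOpen_interior isOpen_interior
  refine Pool.Agent.H46.not_conj (interior U ∩ H ⁻¹' interior V) (interior V ∩ K ⁻¹' interior U)
    H K hWo hVo hW0 hH0 (hKc.mono (Set.inter_subset_left.trans interior_subset)) ?_ ?_ ?_ ?_
  · rintro z ⟨hz1, hz2⟩
    refine ⟨hz2, ?_⟩
    change K (H z) ∈ interior U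
    rw [hKH z (interior_subset hz1)]
    exact hz1
  · rintro z ⟨hz1, -⟩
    exact hKH z (interior_subset hz1)
  · rintro w ⟨hw1, -⟩
    exact hHK w (interior_subset hw1)
  · have hHcont : ContinuousAt H 0 := hHc.continuousAt hU
    have htend : Filter.Tendsto H (𝓝 0) (𝓝 0) := by
      have := hHcont.tendsto
      rwa [hH0] at this
    filter_upwards [hconj, htend.eventually hg] with z hz1 hz2
    obtain ⟨hz, hfz, heq⟩ := hz1
    obtain ⟨γ, hγ0, hγ1, hγ⟩ := hz2
    refine ⟨γ, hγ0, ?_, fun t ht => ?_⟩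
    · rw [hγ1, hHU z hz, ← heq]
      exact (hHU (henon z) hfz).symm
    · rw [← polyMap_cubic]
      exact (hγ t ht).hasDerivWithinAt

/-- The polynomial automorphism `f(x, y) = (x + y³, y - (x + y³)³)` of `ℂ²` has the form
`f(z) = z + P(z) + O(|z|⁴)` with `P = (y³, -x³)`, all its characteristic directions are
non-degenerate, and it is not topologically locally conjugate to the time-1 map of the vector field
`P` (which exists, and is unique as a germ). -/
theorem result :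
    IsTangentToIdentity henon 3 cubic ∧
    Function.Bijective henon ∧
    (∀ v : Fin 2 → ℂ, IsCharacteristicDirection cubic v → ¬ IsDegenerate cubic v) ∧
    (∃ g : (Fin 2 → ℂ) → (Fin 2 → ℂ), IsTimeOneMap cubic g) ∧
    (∀ g g' : (Fin 2 → ℂ) → (Fin 2 → ℂ), IsTimeOneMap cubic g → IsTimeOneMap cubic g' →
      g =ᶠ[𝓝 0] g') ∧
    ∀ g : (Fin 2 → ℂ) → (Fin 2 → ℂ), IsTimeOneMap cubic g → ¬ LocallyConjugate henon g := by
  refine ⟨cubic_tangent, ⟨?_, ?_⟩, fun v hv => cubic_nondeg v hv.1, exists_timeOne,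
    timeOne_unique, not_locallyConjugate⟩
  · intro z w hzw
    have h0 := congr_fun hzw 0
    have h1 := congr_fun hzw 1
    simp only [henon, Matrix.cons_val_zero, Matrix.cons_val_one, Matrix.cons_val_fin_one] at h0 h1
    have h2 : z 1 = w 1 := by
      rw [h0] at h1
      exact sub_left_injective h1
    have h3 : z 0 = w 0 := by
      rw [h2] at h0
      exact add_left_injective _ h0
    funext i
    fin_cases i
    · exact h3
    · exact h2
  · intro w
    refine ⟨![w 0 - (w 1 + w 0 ^ 3) ^ 3, w 1 + w 0 ^ 3], ?_⟩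
    funext i
    fin_cases i
    · simp [henon]
    · simp [henon]

end Pool.Agent.Results.MP_1bbffc_an.HenonGerm
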